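import Mathlib

/-!
# Stack-sorting: definitions

`stp` is one step of the stack algorithm, `srt` the stack-sorting map, `des` the number of
descents, `wds S` the words without repetition with letter set `S`.
-/

set_option autoImplicit false

namespace Pool.Agent.H44R2.Stk

open Finset

/-- One step of the stack algorithm on a pair (stack, output): before `z` is pushed, every
smaller entry on top of the stack is popped to the output. -/
def stp (p : List ℕ × List ℕ) (z : ℕ) : List ℕ × List ℕ :=
  (z :: p.1.dropWhile (fun a : ℕ => decide (a < z)),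
    p.2 ++ p.1.takeWhile (fun a : ℕ => decide (a < z)))

/-- The stack-sorting map: read the word from left to right through one stack, and empty the
stack at the end. -/
def srt (σ : List ℕ) : List ℕ := (σ.foldl stp ([], [])).2 ++ (σ.foldl stp ([], [])).1

/-- The number of descents of a word. -/
def des (t : List ℕ) : ℕ := (List.zip t t.tail).countP (fun q : ℕ × ℕ => decide (q.2 < q.1))

/-- The first letter of a word (`0` for the empty word). -/
def hd (t : List ℕ) : ℕ := t.headI

/-- The words without repetition whose set of letters is `S`. -/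
noncomputable def wds (S : Finset ℕ) : Finset (List ℕ) := S.toList.permutations.toFinset

/-- Weighted count of chains of `k` nonempty words `π₁, …, π_k` whose letter sets partition
`S` and such that all letters of `π_{j+1}, …, π_k` are smaller than the first letter of
`srt π_j`; the weight is the product of the `y ^ des (srt π_j)`. -/
noncomputable def ch (y : ℂ) : ℕ → Finset ℕ → ℂ
  | 0, S => if S = ∅ then 1 else 0
  | (k + 1), S => ∑ T ∈ S.powerset, ∑ π ∈ wds T,
      if T ≠ ∅ ∧ ∀ z ∈ S \ T, z < hd (srt π) then y ^ des (srt π) * ch y k (S \ T) else 0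

/-- The linear system behind the entire function `M`. -/
def gg (y : ℂ) : ℕ → ℕ → ℂ
  | 0, k => if k = 0 then 1 else 0
  | (n + 1), 0 => -y * (gg y n 0 + gg y n 1)
  | (n + 1), (k + 1) => (2 - y) * gg y n (k + 1) + (1 - y) * gg y n (k + 2) + gg y n k

/-- The system of numerical recursions satisfied by the weighted counts of chains. -/
structure Sys (y : ℂ) (F : ℕ → ℕ → ℂ) : Prop where
  h00 : F 0 0 = 1
  h0 : ∀ n, F 0 (n + 1) = 0
  hk : ∀ k, F (k + 1) 0 = 0
  hrec : ∀ k n, F (k + 1) (n + 1) = F k n + 2 * F (k + 1) n
    + y * ∑ j ∈ range (n + 1), (n.choose j : ℂ) * F 1 j * F (k + 1) (n - j)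
    + (1 - y) * F (k + 2) n

/-- Hypotheses on the Taylor coefficients `φ` of the entire function for the parameter
`y = 1 + t`. -/
structure Phi (t : ℂ) (φ : ℕ → ℂ) : Prop where
  p0 : φ 0 = 1
  p1 : φ 1 = -(1 + t)
  p2 : ∀ n, 2 ≤ n → ‖φ n‖ ≤ 2 * ‖t‖ * 4 ^ n / (n.factorial : ℝ)

end Pool.Agent.H44R2.Stk
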