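import Pool.Agent.H44R2.Stk.Defs

/-!
# Stubs of the tasks (all statements compile; proofs to be supplied)
-/

set_option autoImplicit false
set_option linter.unusedVariables false

namespace Pool.Agent.H44R2.Stk.Stubs

open Finset Filter Topology MeasureTheory ProbabilityTheory
open Pool.Agent.H44R2.Stk

/-! ## T1: the stack algorithm -/

theorem srt_nil : srt [] = [] := rfl

theorem srt_perm (σ : List ℕ) : (srt σ).Perm σ := by sorry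

theorem srt_split (L R : List ℕ) (m : ℕ) (hL : ∀ a ∈ L, a < m) (hR : ∀ a ∈ R, a < m) :
    srt (L ++ m :: R) = srt L ++ (srt R ++ [m]) := by sorry

theorem srt_single (m : ℕ) : srt [m] = [m] ∧ des (srt [m]) = 0 := by sorry

theorem des_left (L : List ℕ) (m : ℕ) (hL : ∀ a ∈ L, a < m) (h : L ≠ []) :
    des (srt (L ++ m :: [])) = des (srt L) ∧ hd (srt (L ++ m :: [])) = hd (srt L) := by sorry

theorem des_right (R : List ℕ) (m : ℕ) (hR : ∀ a ∈ R, a < m) (h : R ≠ []) :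
    des (srt ([] ++ m :: R)) = des (srt R) ∧ hd (srt ([] ++ m :: R)) = hd (srt R) := by sorry

theorem des_both (L R : List ℕ) (m : ℕ) (hL : ∀ a ∈ L, a < m) (hR : ∀ a ∈ R, a < m)
    (h : L ≠ []) (h' : R ≠ []) :
    des (srt (L ++ m :: R)) = des (srt L) + des (srt R) +
      (if ∃ a ∈ L, hd (srt R) < a then 1 else 0) ∧
    hd (srt (L ++ m :: R)) = hd (srt L) := by sorry

/-! ## T2: words with a given letter set, split at the largest letter -/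

theorem mem_wds (S : Finset ℕ) (l : List ℕ) : l ∈ wds S ↔ l.Nodup ∧ l.toFinset = S := by sorry

theorem sum_wds_split (S : Finset ℕ) (m : ℕ) (hm : m ∈ S) (hmax : ∀ a ∈ S, a ≤ m)
    (g : List ℕ → ℂ) :
    ∑ π ∈ wds S, g π = ∑ T ∈ (S.erase m).powerset, ∑ L ∈ wds T,
      ∑ R ∈ wds ((S.erase m) \ T), g (L ++ m :: R) := by sorry

theorem card_wds_range (n : ℕ) : (wds (range n)).card = n.factorial := by sorry

/-! ## T3: the recursion for chains -/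

theorem ch_rec (y : ℂ) (k : ℕ) (S : Finset ℕ) (m : ℕ) (hm : m ∈ S) (hmax : ∀ a ∈ S, a ≤ m) :
    ch y (k + 1) S = ch y k (S.erase m) + 2 * ch y (k + 1) (S.erase m)
      + y * ∑ T ∈ (S.erase m).powerset, ch y 1 T * ch y (k + 1) ((S.erase m) \ T)
      + (1 - y) * ch y (k + 2) (S.erase m) := by sorry

theorem ch_eq (y : ℂ) (F : ℕ → ℕ → ℂ) (hF : Sys y F) (k : ℕ) (S : Finset ℕ) :
    ch y k S = F k S.card := by sorry

theorem ch_one (y : ℂ) (S : Finset ℕ) (hS : S ≠ ∅) :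
    ch y 1 S = ∑ π ∈ wds S, y ^ des (srt π) := by sorry

/-! ## T4: linearisation -/

theorem exists_sys (y : ℂ) : ∃ F : ℕ → ℕ → ℂ, Sys y F ∧
    ∀ n, ∑ j ∈ range (n + 1), (n.choose j : ℂ) * (y * ((if j = 0 then 1 else 0) + F 1 j)) *
      gg y (n - j) 0 = -gg y (n + 1) 0 := by sorry

/-! ## T5: the zero of the entire function -/

theorem exists_rho : ∃ δ > 0, ∃ C > 0, ∀ t : ℂ, ‖t‖ ≤ δ → ∀ φ : ℕ → ℂ, Phi t φ →
    ∃ ρ : ℂ, ‖ρ - 1‖ ≤ C * ‖t‖ ∧ HasSum (fun n => φ n * ρ ^ n) 0 := by sorry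

/-! ## T6: coefficients of the logarithmic derivative -/

theorem coeff_bound : ∃ δ > 0, ∃ C > 0, ∀ t : ℂ, ‖t‖ ≤ δ → ∀ φ : ℕ → ℂ, Phi t φ →
    ∀ ρ : ℂ, 1 / 2 ≤ ‖ρ‖ → ‖ρ‖ ≤ 2 → HasSum (fun n => φ n * ρ ^ n) 0 →
    ∀ a : ℕ → ℂ, (∀ n, ∑ j ∈ range (n + 1), a j * φ (n - j) = -((n : ℂ) + 1) * φ (n + 1)) →
    ∀ n, ‖a n - (ρ⁻¹) ^ (n + 1)‖ ≤ C * (2 / 3) ^ n := by sorry

/-! ## T7: expansion of the coefficients in `t = y - 1` -/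

theorem gg_expand (t : ℂ) (ht : ‖t‖ ≤ 1 / 2) (n : ℕ) (hn : 2 ≤ n) :
    ‖gg (1 + t) n 0 - (t + t ^ 2 * ((n : ℂ) - (n : ℂ) * (n - 1) / 2))‖ ≤ 2 * ‖t‖ ^ 3 * 4 ^ n := by
  sorry

theorem gg_zero (y : ℂ) : gg y 0 0 = 1 ∧ gg y 1 0 = -y := by sorry

/-! ## T8a, T8b: expansion of the zero -/

theorem rho_eq (t : ℂ) (ht : ‖t‖ ≤ 1 / 2) (ρ : ℂ) (hρ : ‖ρ‖ ≤ 2)
    (h : HasSum (fun n => gg (1 + t) n 0 / (n.factorial : ℂ) * ρ ^ n) 0) :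
    ‖1 - (1 + t) * ρ + t * (Complex.exp ρ - 1 - ρ)
      + t ^ 2 * ((ρ - ρ ^ 2 / 2) * Complex.exp ρ - ρ)‖ ≤ 2 * Real.exp 8 * ‖t‖ ^ 3 := by sorry

theorem rho_expand (C : ℝ) : ∃ δ > 0, ∃ C' > 0, ∀ t ρ : ℂ, ‖t‖ ≤ δ → ‖ρ - 1‖ ≤ C * ‖t‖ →
    ‖1 - (1 + t) * ρ + t * (Complex.exp ρ - 1 - ρ)
      + t ^ 2 * ((ρ - ρ ^ 2 / 2) * Complex.exp ρ - ρ)‖ ≤ 2 * Real.exp 8 * ‖t‖ ^ 3 →
    ‖ρ - (1 + (Complex.exp 1 - 3) * t
      + (Complex.exp 1 ^ 2 - 9 / 2 * Complex.exp 1 + 5) * t ^ 2)‖ ≤ C' * ‖t‖ ^ 3 := by sorry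

/-! ## T8c: the limit of powers -/

theorem pow_limit (θ : ℝ) (ρ : ℕ → ℂ) (C : ℝ)
    (h : ∀ᶠ n : ℕ in atTop,
      ‖ρ n - (1 + (Complex.exp 1 - 3) * (Complex.exp ((θ / Real.sqrt n : ℝ) * Complex.I) - 1)
        + (Complex.exp 1 ^ 2 - 9 / 2 * Complex.exp 1 + 5) *
          (Complex.exp ((θ / Real.sqrt n : ℝ) * Complex.I) - 1) ^ 2)‖
        ≤ C * ‖Complex.exp ((θ / Real.sqrt n : ℝ) * Complex.I) - 1‖ ^ 3) :
    Tendsto (fun n : ℕ => (ρ n)⁻¹ ^ n *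
        Complex.exp (-((θ * (3 - Real.exp 1) * Real.sqrt n : ℝ) : ℂ) * Complex.I)) atTop
      (𝓝 (Complex.exp (-((2 + 2 * Real.exp 1 - Real.exp 1 ^ 2) * θ ^ 2 / 2 : ℝ)))) := by sorry

/-! ## T9: from characteristic functions to distribution functions -/

theorem cdf_tendsto (μ : ℕ → Measure ℝ) [∀ n, IsProbabilityMeasure (μ n)] (v : NNReal)
    (hv : v ≠ 0)
    (h : ∀ θ : ℝ, Tendsto (fun n => charFun (μ n) θ) atTop
      (𝓝 (Complex.exp (-((v : ℝ) * θ ^ 2 / 2 : ℝ))))) (x : ℝ) :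
    Tendsto (fun n => (μ n).real (Set.Iic x)) atTop (𝓝 (cdf (gaussianReal 0 v) x)) := by sorry

theorem finite_cdf_tendsto {α : Type*} (P : ℕ → Finset α) (hP : ∀ n, (P n).Nonempty)
    (Y : ℕ → α → ℝ) (v : NNReal) (hv : v ≠ 0)
    (h : ∀ θ : ℝ, Tendsto (fun n => (∑ a ∈ P n, Complex.exp (θ * Y n a * Complex.I)) /
      ((P n).card : ℂ)) atTop (𝓝 (Complex.exp (-((v : ℝ) * θ ^ 2 / 2 : ℝ))))) (x : ℝ) :
    Tendsto (fun n => (((P n).filter (fun a => Y n a ≤ x)).card : ℝ) / ((P n).card : ℝ)) atTop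
      (𝓝 (cdf (gaussianReal 0 v) x)) := by sorry

theorem variance_pos : 0 < 2 + 2 * Real.exp 1 - Real.exp 1 ^ 2 := by sorry

end Pool.Agent.H44R2.Stk.Stubs
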