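import Pool.Agent.H143R2.Stk.T1
import Pool.Agent.H409R2.Stk.T2
import Pool.Agent.H682R2.Stk.T3
import Pool.Agent.H965R2.Stk.T4
import Pool.Agent.H379R2.Stk.T5
import Pool.Agent.H61R2.Stk.T6
import Pool.Agent.H909R2.Stk.T7
import Pool.Agent.H446R2.Stk.T8
import Pool.Agent.H469R2.Stk.T8c
import Pool.Agent.H114R2.Stk.T9

/-!
# Assembly of the central limit theorem for descents after stack-sorting
-/

set_option autoImplicit false

namespace Pool.Agent.H44R2.Stk.T10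

open Finset Filter Topology MeasureTheory ProbabilityTheory
open Pool.Agent.H44R2.Stk
open Pool.Agent.H409R2.Stk (mem_wds card_wds_range)
open Pool.Agent.H682R2.Stk (ch_eq ch_one)
open Pool.Agent.H965R2.Stk (exists_sys)
open Pool.Agent.H379R2.Stk (exists_rho)
open Pool.Agent.H61R2.Stk (coeff_bound)
open Pool.Agent.H909R2.Stk (gg_expand gg_zero)
open Pool.Agent.H446R2.Stk (rho_expand)
open Pool.Agent.H469R2.Stk (pow_limit)
open Pool.Agent.H114R2.Stk (finite_cdf_tendsto variance_pos)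

theorem rho_eq (t : ℂ) (ht : ‖t‖ ≤ 1 / 2) (ρ : ℂ) (hρ : ‖ρ‖ ≤ 2)
    (h : HasSum (fun n => gg (1 + t) n 0 / (n.factorial : ℂ) * ρ ^ n) 0) :
    ‖1 - (1 + t) * ρ + t * (Complex.exp ρ - 1 - ρ)
      + t ^ 2 * ((ρ - ρ ^ 2 / 2) * Complex.exp ρ - ρ)‖ ≤ 2 * Real.exp 8 * ‖t‖ ^ 3 :=
  Pool.Agent.H446R2.Stk.rho_eq gg_expand t ht ρ hρ h

/-- The normalised coefficients `φ_n = gg y n 0 / n!`. -/
noncomputable def phi (t : ℂ) (n : ℕ) : ℂ := gg (1 + t) n 0 / (n.factorial : ℂ)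

theorem phi_Phi (t : ℂ) (ht : ‖t‖ ≤ 1 / 2) : Phi t (phi t) := by
  obtain ⟨g0, g1⟩ := gg_zero (1 + t)
  refine ⟨by simp [phi, g0], by simp [phi, g1], fun n hn => ?_⟩
  unfold phi
  rw [norm_div, Complex.norm_natCast]
  have hfac : (0 : ℝ) < (n.factorial : ℝ) := by exact_mod_cast n.factorial_pos
  refine div_le_div_of_nonneg_right ?_ hfac.le
  have h := gg_expand t ht n hn
  set A : ℂ := (n : ℂ) - (n : ℂ) * (n - 1) / 2 with hA
  have hAn : ‖A‖ ≤ (4 : ℝ) ^ n := by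
    have h1 : ‖A‖ ≤ (n : ℝ) + (n : ℝ) * (n : ℝ) := by
      rw [hA]
      refine (norm_sub_le _ _).trans ?_
      rw [Complex.norm_natCast, norm_div, norm_mul, Complex.norm_natCast]
      have : ‖(n : ℂ) - 1‖ ≤ (n : ℝ) := by
        have h2 : (n : ℂ) - 1 = ((n - 1 : ℝ) : ℂ) := by push_cast; ring
        rw [h2, Complex.norm_real, Real.norm_eq_abs, abs_of_nonneg]
        · linarith
        · have : (1 : ℝ) ≤ n := by exact_mod_cast (by omega : 1 ≤ n)
          linarith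
      have h3 : ‖(2 : ℂ)‖ = 2 := by simp
      rw [h3]
      have h4 : (0 : ℝ) ≤ n := Nat.cast_nonneg n
      have h5 : (n : ℝ) * ‖(n : ℂ) - 1‖ ≤ n * n := mul_le_mul_of_nonneg_left this h4
      have h6 : (n : ℝ) * ‖(n : ℂ) - 1‖ / 2 ≤ n * n := by
        have : 0 ≤ (n : ℝ) * ‖(n : ℂ) - 1‖ := by positivity
        linarith
      linarith
    refine h1.trans ?_
    have h2 : n < 2 ^ n := Nat.lt_two_pow_self
    have h3 : (n : ℝ) + 1 ≤ 2 ^ n := by exact_mod_cast h2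
    have h4 : (4 : ℝ) ^ n = 2 ^ n * 2 ^ n := by
      rw [← mul_pow]; norm_num
    rw [h4]
    have h5 : (0 : ℝ) ≤ n := Nat.cast_nonneg n
    nlinarith
  have h4 : (1 : ℝ) ≤ (4 : ℝ) ^ n := one_le_pow₀ (by norm_num)
  have key : ‖gg (1 + t) n 0‖ ≤ ‖t‖ + ‖t‖ ^ 2 * ‖A‖ + 2 * ‖t‖ ^ 3 * 4 ^ n := by
    calc ‖gg (1 + t) n 0‖
        = ‖(gg (1 + t) n 0 - (t + t ^ 2 * A)) + (t + t ^ 2 * A)‖ := by ring_nf
      _ ≤ ‖gg (1 + t) n 0 - (t + t ^ 2 * A)‖ + ‖t + t ^ 2 * A‖ := norm_add_le _ _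
      _ ≤ 2 * ‖t‖ ^ 3 * 4 ^ n + (‖t‖ + ‖t‖ ^ 2 * ‖A‖) := by
          refine add_le_add h ?_
          refine (norm_add_le _ _).trans ?_
          rw [norm_mul, norm_pow]
      _ = _ := by ring
  refine key.trans ?_
  have ht0 : 0 ≤ ‖t‖ := norm_nonneg t
  have e1 : ‖t‖ ^ 2 * ‖A‖ ≤ ‖t‖ * (1 / 2) * 4 ^ n := by
    have : ‖t‖ ^ 2 ≤ ‖t‖ * (1 / 2) := by nlinarith
    exact mul_le_mul this hAn (norm_nonneg _) (by positivity)
  have e2 : 2 * ‖t‖ ^ 3 * 4 ^ n ≤ ‖t‖ * (1 / 2) * 4 ^ n := by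
    refine mul_le_mul_of_nonneg_right ?_ (by positivity)
    have : ‖t‖ ^ 2 ≤ 1 / 4 := by nlinarith
    nlinarith
  have e3 : ‖t‖ ≤ ‖t‖ * 4 ^ n := by nlinarith
  nlinarith

/-- The normalised generating polynomial of `des ∘ srt` on `S_n`. -/
noncomputable def aa (y : ℂ) (n : ℕ) : ℂ :=
  y * (∑ π ∈ wds (range n), y ^ des (srt π)) / (n.factorial : ℂ)

theorem wds_empty : wds (∅ : Finset ℕ) = {[]} := by
  ext l
  rw [mem_wds]
  constructor
  · rintro ⟨-, h⟩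
    rw [mem_singleton]
    exact List.toFinset_eq_empty_iff l |>.1 h
  · intro h
    rw [mem_singleton] at h
    subst h
    simp

theorem aa_rec (t : ℂ) (n : ℕ) :
    ∑ j ∈ range (n + 1), aa (1 + t) j * phi t (n - j) = -((n : ℂ) + 1) * phi t (n + 1) := by
  obtain ⟨F, hF, hlin⟩ := exists_sys (1 + t)
  have hc : ∀ j, (1 + t) * (∑ π ∈ wds (range j), (1 + t) ^ des (srt π))
      = (1 + t) * ((if j = 0 then 1 else 0) + F 1 j) := by
    intro j
    congr 1
    rcases Nat.eq_zero_or_pos j with rfl | hj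
    · rw [range_zero, wds_empty, sum_singleton, hF.hk 0]
      have : des (srt []) = 0 := by decide
      rw [this]; simp
    · have hne : (range j) ≠ ∅ := by
        intro h
        have : j = 0 := by simpa using h
        omega
      rw [← ch_one (1 + t) (range j) hne, ch_eq (1 + t) F hF, card_range, if_neg (by omega),
        zero_add]
  have h := hlin n
  have hn : ((n.factorial : ℕ) : ℂ) ≠ 0 := by exact_mod_cast n.factorial_ne_zero
  have hn1 : (((n + 1).factorial : ℕ) : ℂ) ≠ 0 := by exact_mod_cast (n + 1).factorial_ne_zero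
  have hsum : ∑ j ∈ range (n + 1), aa (1 + t) j * phi t (n - j)
      = (∑ j ∈ range (n + 1), (n.choose j : ℂ) *
        ((1 + t) * ((if j = 0 then 1 else 0) + F 1 j)) * gg (1 + t) (n - j) 0) / n.factorial := by
    rw [Finset.sum_div]
    refine Finset.sum_congr rfl fun j hj => ?_
    have hjn : j ≤ n := by
      have := mem_range.1 hj; omega
    unfold aa phi
    rw [hc j]
    have hch : (n.choose j : ℂ) * (j.factorial : ℂ) * ((n - j).factorial : ℂ)
        = (n.factorial : ℂ) := by exact_mod_cast Nat.choose_mul_factorial_mul_factorial hjn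
    have h1 : (j.factorial : ℂ) ≠ 0 := by exact_mod_cast j.factorial_ne_zero
    have h2 : ((n - j).factorial : ℂ) ≠ 0 := by exact_mod_cast (n - j).factorial_ne_zero
    rw [← hch]
    have h3 : (n.choose j : ℂ) ≠ 0 := by
      exact_mod_cast (Nat.choose_pos hjn).ne'
    field_simp
  rw [hsum, h]
  unfold phi
  rw [Nat.factorial_succ]
  have : ((n : ℂ) + 1) ≠ 0 := by exact_mod_cast Nat.succ_ne_zero n
  push_cast
  field_simp

theorem wds_range_card (n : ℕ) : (wds (range n)).Nonempty := by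
  rw [← Finset.card_pos, card_wds_range]
  exact n.factorial_pos

/-- The parameter `t = exp(iθ/√n) - 1`. -/
noncomputable def tt (θ : ℝ) (n : ℕ) : ℂ :=
  Complex.exp ((θ / Real.sqrt n : ℝ) * Complex.I) - 1

theorem tt_tendsto (θ : ℝ) : Tendsto (fun n => ‖tt θ n‖) atTop (𝓝 0) := by
  have h1 : Tendsto (fun n : ℕ => θ / Real.sqrt (n : ℝ)) atTop (𝓝 0) :=
    Tendsto.div_atTop tendsto_const_nhds
      (Real.tendsto_sqrt_atTop.comp tendsto_natCast_atTop_atTop)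
  have h2 : Tendsto (fun n : ℕ => tt θ n) atTop (𝓝 0) := by
    have hc : Continuous (fun s : ℝ => Complex.exp ((s : ℂ) * Complex.I) - 1) := by fun_prop
    have := (hc.tendsto 0).comp h1
    simpa [tt, Function.comp_def] using this
  simpa using h2.norm

/-- The statistic. -/
noncomputable def Y (n : ℕ) (σ : List ℕ) : ℝ :=
  ((des (srt σ) : ℝ) + 1 - (3 - Real.exp 1) * (n : ℝ)) / Real.sqrt (n : ℝ)

theorem charfun_eq (θ : ℝ) (n : ℕ) (hn : 1 ≤ n) :
    (∑ σ ∈ wds (range (n - 1)), Complex.exp (θ * Y n σ * Complex.I)) /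
      ((wds (range (n - 1))).card : ℂ) =
    aa (1 + tt θ n) (n - 1) *
      Complex.exp (-((θ * (3 - Real.exp 1) * Real.sqrt n : ℝ) : ℂ) * Complex.I) := by
  rw [card_wds_range]
  unfold aa
  rw [mul_comm _ (Complex.exp (-((θ * (3 - Real.exp 1) * Real.sqrt n : ℝ) : ℂ) * Complex.I)),
    ← mul_div_assoc, Finset.mul_sum, Finset.mul_sum]
  congr 1
  refine Finset.sum_congr rfl fun σ _ => ?_
  have e1 : (1 : ℂ) + tt θ n = Complex.exp ((θ / Real.sqrt n : ℝ) * Complex.I) := by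
    unfold tt; ring
  rw [e1, ← Complex.exp_nat_mul, ← Complex.exp_add, ← Complex.exp_add]
  congr 1
  unfold Y
  have hs : Real.sqrt (n : ℝ) ≠ 0 := by
    have : (0 : ℝ) < n := by exact_mod_cast hn
    exact (Real.sqrt_pos.2 this).ne'
  have hsq : Real.sqrt (n : ℝ) * Real.sqrt (n : ℝ) = n := Real.mul_self_sqrt (Nat.cast_nonneg n)
  have key : θ * (((des (srt σ) : ℝ) + 1 - (3 - Real.exp 1) * (n : ℝ)) / Real.sqrt (n : ℝ))
      = -(θ * (3 - Real.exp 1) * Real.sqrt n) + (θ / Real.sqrt n + (des (srt σ) : ℝ) *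
        (θ / Real.sqrt n)) := by
    field_simp
    rw [show (Real.sqrt (n : ℝ)) ^ 2 = n from by rw [sq]; exact hsq]
    ring
  have key2 : ((θ * (((des (srt σ) : ℝ) + 1 - (3 - Real.exp 1) * (n : ℝ)) /
      Real.sqrt (n : ℝ)) : ℝ) : ℂ) * Complex.I = ((-(θ * (3 - Real.exp 1) * Real.sqrt n) +
        (θ / Real.sqrt n + (des (srt σ) : ℝ) * (θ / Real.sqrt n)) : ℝ) : ℂ) * Complex.I := by
    rw [key]
  push_cast at key2 ⊢
  rw [key2]
  ring

theorem charfun_tendsto (θ : ℝ) :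
    Tendsto (fun n => (∑ σ ∈ wds (range (n - 1)), Complex.exp (θ * Y n σ * Complex.I)) /
      ((wds (range (n - 1))).card : ℂ)) atTop
      (𝓝 (Complex.exp (-((2 + 2 * Real.exp 1 - Real.exp 1 ^ 2) * θ ^ 2 / 2 : ℝ)))) := by
  obtain ⟨δ₁, hδ₁, C₁, hC₁, H1⟩ := exists_rho
  obtain ⟨δ₂, hδ₂, C₂, hC₂, H2⟩ := coeff_bound
  obtain ⟨δ₃, hδ₃, C₃, hC₃, H3⟩ := rho_expand C₁
  -- choice of ρ
  have hex : ∀ n : ℕ, ∃ ρ : ℂ, (‖tt θ n‖ ≤ δ₁ → ‖tt θ n‖ ≤ 1 / 2 →
      ‖ρ - 1‖ ≤ C₁ * ‖tt θ n‖ ∧ HasSum (fun k => phi (tt θ n) k * ρ ^ k) 0) := by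
    intro n
    by_cases h : ‖tt θ n‖ ≤ δ₁ ∧ ‖tt θ n‖ ≤ 1 / 2
    · obtain ⟨ρ, h1, h2⟩ := H1 (tt θ n) h.1 (phi (tt θ n)) (phi_Phi _ h.2)
      exact ⟨ρ, fun _ _ => ⟨h1, h2⟩⟩
    · exact ⟨1, fun h1 h2 => absurd ⟨h1, h2⟩ h⟩
  choose ρ hρ using hex
  have hev : ∀ᶠ n : ℕ in atTop, ‖tt θ n‖ ≤ min (min δ₁ δ₂) (min δ₃ (min (1 / 2) (1 / (2 * C₁)))) := by
    have hpos : 0 < min (min δ₁ δ₂) (min δ₃ (min (1 / 2) (1 / (2 * C₁)))) := by
      refine lt_min (lt_min hδ₁ hδ₂) (lt_min hδ₃ (lt_min (by norm_num) (by positivity)))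
    exact ((tt_tendsto θ).eventually (gt_mem_nhds hpos)).mono fun n hn => le_of_lt hn
  have hmain : ∀ᶠ n : ℕ in atTop,
      ‖ρ n - (1 + (Complex.exp 1 - 3) * tt θ n
        + (Complex.exp 1 ^ 2 - 9 / 2 * Complex.exp 1 + 5) * (tt θ n) ^ 2)‖
        ≤ C₃ * ‖tt θ n‖ ^ 3 ∧
      ‖aa (1 + tt θ n) (n - 1) - ((ρ n)⁻¹) ^ n‖ ≤ C₂ * (2 / 3) ^ (n - 1) := by
    filter_upwards [hev, eventually_ge_atTop 1] with n hn hn1
    have a1 : ‖tt θ n‖ ≤ δ₁ := hn.trans ((min_le_left _ _).trans (min_le_left _ _))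
    have a2 : ‖tt θ n‖ ≤ δ₂ := hn.trans ((min_le_left _ _).trans (min_le_right _ _))
    have a3 : ‖tt θ n‖ ≤ δ₃ := hn.trans ((min_le_right _ _).trans (min_le_left _ _))
    have a4 : ‖tt θ n‖ ≤ 1 / 2 :=
      hn.trans ((min_le_right _ _).trans ((min_le_right _ _).trans (min_le_left _ _)))
    have a5 : ‖tt θ n‖ ≤ 1 / (2 * C₁) :=
      hn.trans ((min_le_right _ _).trans ((min_le_right _ _).trans (min_le_right _ _)))
    obtain ⟨b1, b2⟩ := hρ n a1 a4
    have b3 : ‖ρ n - 1‖ ≤ 1 / 2 := by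
      refine b1.trans ?_
      calc C₁ * ‖tt θ n‖ ≤ C₁ * (1 / (2 * C₁)) := mul_le_mul_of_nonneg_left a5 hC₁.le
        _ = 1 / 2 := by field_simp
    have b4 : 1 / 2 ≤ ‖ρ n‖ := by
      have h := norm_sub_norm_le (1 : ℂ) (1 - ρ n)
      have h' : (1 : ℂ) - (1 - ρ n) = ρ n := by ring
      rw [h', norm_one, norm_sub_rev] at h
      linarith
    have b5 : ‖ρ n‖ ≤ 2 := by
      have h := norm_add_le (ρ n - 1) (1 : ℂ)
      rw [sub_add_cancel, norm_one] at h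
      linarith
    refine ⟨?_, ?_⟩
    · exact H3 (tt θ n) (ρ n) a3 b1 (rho_eq (tt θ n) a4 (ρ n) b5 b2)
    · have h := H2 (tt θ n) a2 (phi (tt θ n)) (phi_Phi _ a4) (ρ n) b4 b5 b2
        (aa (1 + tt θ n)) (aa_rec (tt θ n)) (n - 1)
      rwa [Nat.sub_add_cancel hn1] at h
  have L1 := pow_limit θ ρ C₃ (hmain.mono fun n hn => hn.1)
  have L2 : Tendsto (fun n : ℕ => (aa (1 + tt θ n) (n - 1) - ((ρ n)⁻¹) ^ n) *
      Complex.exp (-((θ * (3 - Real.exp 1) * Real.sqrt n : ℝ) : ℂ) * Complex.I)) atTop (𝓝 0) := by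
    refine squeeze_zero_norm' (a := fun n : ℕ => C₂ * (2 / 3) ^ (n - 1)) ?_ ?_
    · filter_upwards [hmain] with n hn
      have e1 : ‖Complex.exp (-((θ * (3 - Real.exp 1) * Real.sqrt n : ℝ) : ℂ) * Complex.I)‖
          = 1 := by
        rw [← Complex.ofReal_neg, Complex.norm_exp_ofReal_mul_I]
      rw [norm_mul, e1, mul_one]
      exact hn.2
    · have h0 : Tendsto (fun n : ℕ => (2 / 3 : ℝ) ^ n) atTop (𝓝 0) :=
        tendsto_pow_atTop_nhds_zero_of_lt_one (by norm_num) (by norm_num)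
      have h1 : Tendsto (fun n : ℕ => (2 / 3 : ℝ) ^ (n - 1)) atTop (𝓝 0) :=
        h0.comp (tendsto_sub_atTop_nat 1)
      simpa using h1.const_mul C₂
  have L3 := L1.add L2
  rw [add_zero] at L3
  refine L3.congr' ?_
  filter_upwards [eventually_ge_atTop 1] with n hn
  rw [charfun_eq θ n hn]
  ring

theorem main_wds (x : ℝ) :
    Tendsto (fun n => (((wds (range (n - 1))).filter (fun σ => Y n σ ≤ x)).card : ℝ) /
      ((wds (range (n - 1))).card : ℝ)) atTop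
      (𝓝 (cdf (gaussianReal 0 (Real.toNNReal (2 + 2 * Real.exp 1 - Real.exp 1 ^ 2))) x)) := by
  have hv := variance_pos
  refine finite_cdf_tendsto (fun n => wds (range (n - 1))) (fun n => wds_range_card (n - 1))
    Y (Real.toNNReal (2 + 2 * Real.exp 1 - Real.exp 1 ^ 2)) ?_ ?_ x
  · exact (Real.toNNReal_pos.2 hv).ne'
  · intro θ
    rw [Real.coe_toNNReal _ hv.le]
    exact charfun_tendsto θ

theorem wds_range_eq (m : ℕ) : wds (range m) = (List.range m).permutations.toFinset := by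
  ext l
  rw [mem_wds, List.mem_toFinset, List.mem_permutations]
  constructor
  · rintro ⟨h1, h2⟩
    rw [List.perm_ext_iff_of_nodup h1 List.nodup_range]
    intro a
    rw [← List.mem_toFinset, h2]
    simp
  · intro h
    refine ⟨h.nodup_iff.2 List.nodup_range, ?_⟩
    ext a
    rw [List.mem_toFinset, h.mem_iff]
    simp

theorem countP_eq (m : ℕ) (p : List ℕ → Prop) [DecidablePred p] :
    ((List.range m).permutations.countP (fun σ => decide (p σ)))
      = ((wds (range m)).filter p).card := by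
  have hnd : (List.range m).permutations.Nodup := List.nodup_permutations _ List.nodup_range
  have h1 : (wds (range m)).filter p
      = ((List.range m).permutations.filter (fun σ => decide (p σ))).toFinset := by
    ext l
    rw [mem_filter, wds_range_eq, List.mem_toFinset, List.mem_toFinset, List.mem_filter,
      decide_eq_true_eq]
  rw [h1, List.toFinset_card_of_nodup (hnd.filter _), List.countP_eq_length_filter]

theorem main (x : ℝ) :
    Tendsto (fun n : ℕ =>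
      (((List.range (n - 1)).permutations.countP (fun σ : List ℕ =>
        decide (((des (srt σ) : ℝ) + 1 - (3 - Real.exp 1) * (n : ℝ)) / Real.sqrt (n : ℝ) ≤ x)) : ℕ)
          : ℝ) / ((Nat.factorial (n - 1) : ℕ) : ℝ)) atTop
      (𝓝 (cdf (gaussianReal 0 (Real.toNNReal (2 + 2 * Real.exp 1 - Real.exp 1 ^ 2))) x)) := by
  refine (main_wds x).congr fun n => ?_
  rw [card_wds_range, ← countP_eq (n - 1) (fun σ => Y n σ ≤ x)]
  rfl

end Pool.Agent.H44R2.Stk.T10
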